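import Pool.Agent.Y530.TN.Stm
import Pool.Agent.Y781.TB.Row

/-!
# Six bars between two bodies (job TN-PAIR of helper530)
-/

set_option autoImplicit false

namespace Pool.Agent.Y448.TN.Pair

open Finset Module Pool.Agent.W824.BJ Pool.Agent.Y530.BB Pool.Agent.Y530.TN
open Pool.Agent.Y781.TB.Row (SS mem_SS pr_neg' finrank_eqv)

/-- six bars between two bodies -/
theorem t : S_PAIR := by
  intro V B _ _ β y a F F1 hne hsub hc hcap h1 m hm
  classical
  -- the system of two bodies
  set β2 : V → Bool := fun v => decide (β v = y) with hβ2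
  have hF : ∀ u v, s(u, v) ∈ F1 →
      (β2 u = true ∧ β2 v = false) ∨ (β2 u = false ∧ β2 v = true) := by
    intro u v huv
    rcases h1 u v huv with ⟨p, q⟩ | ⟨p, q⟩
    · exact Or.inl ⟨decide_eq_true p, decide_eq_false (by rw [q]; exact hne.symm)⟩
    · exact Or.inr ⟨decide_eq_false (by rw [p]; exact hne.symm), decide_eq_true q⟩
  have hsp : Sparse β2 F1 := by
    intro C hC
    rcases (ins β2 F1 C).eq_empty_or_nonempty with he | ⟨e, he⟩
    · rw [he, Finset.card_empty]
      have := Finset.card_pos.2 hC
      omega
    · have hle : (ins β2 F1 C).card ≤ F1.card :=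
        Finset.card_le_card (fun x hx => (mem_ins.1 hx).1)
      have h2 : 2 ≤ C.card := by
        induction e using Sym2.ind with
        | _ u v =>
          rw [mem_ins'] at he
          have hne : β2 u ≠ β2 v := by
            rcases hF u v he.1 with ⟨a, b⟩ | ⟨a, b⟩ <;> rw [a, b] <;> decide
          have : ({β2 u, β2 v} : Finset Bool) ⊆ C := by
            intro x hx
            rcases Finset.mem_insert.1 hx with rfl | hx
            · exact he.2.1
            · rw [Finset.mem_singleton.1 hx]
              exact he.2.2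
          calc 2 = ({β2 u, β2 v} : Finset Bool).card := (Finset.card_pair hne).symm
            _ ≤ C.card := Finset.card_le_card this
      omega
  have hPP := main_all F1.card V Bool β2 F1 rfl hcap hsp
  have hS : finrank (PK V) (SS F1 (gx V)) = 0 := by
    have h2 := finrank_eqv β2 F1 (gx V) hF
    have h3 : gb β2 F1 = finrank (PK V) (BM β2 F1 (gx V)) := rfl
    rw [h3, h2] at hPP
    simp only [Fintype.card_bool] at hPP
    omega
  have hbot : SS F1 (gx V) = ⊥ := Submodule.finrank_eq_zero.1 hS
  have hT : m y - m a ∈ SS F1 (gx V) := by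
    rw [mem_SS]
    intro u v huv
    have h4 : pr (m (β u) - m (β v)) (gx V u) (gx V v) = 0 := hm u v (hsub huv)
    rcases h1 u v huv with ⟨p, q⟩ | ⟨p, q⟩
    · rw [p, q] at h4
      exact h4
    · rw [p, q] at h4
      have e : m y - m a = -(m a - m y) := by abel
      rw [e, pr_neg', h4, neg_zero]
  rw [hbot, Submodule.mem_bot] at hT
  exact sub_eq_zero.1 hT

end Pool.Agent.Y448.TN.Pair
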